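import Pool.Agent.Q161.ESN.Stm4
import Pool.Agent.Q166.ESG.DAT
import Pool.Agent.Q211.ESG.Kxn

/-!
# Project ESN (helper161): a Galois number field which contains given extensions of `F`
-/

set_option autoImplicit false

namespace Pool.Agent.Q147.ESN

open Pool.Agent.Q161.ESN

open scoped Classical

theorem kxf : S_KXF := by
  intro C F _ _ _ L _ _ _
  let L' : Option C → Type := fun o => Option.elim o F L
  let _ : ∀ o, Field (L' o) := fun o => match o with
    | none => (inferInstance : Field F)
    | some c => (inferInstance : Field (L c))
  let _ : ∀ o, NumberField (L' o) := fun o => match o with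
    | none => (inferInstance : NumberField F)
    | some c => (inferInstance : NumberField (L c))
  obtain ⟨K, hK, hK', hgal, hemb⟩ := Q211.ESG.kxn (Option C) L'
  obtain ⟨j⟩ := hemb none
  refine ⟨K, hK, hK', (RingHom.toAlgebra (show F →+* K from j)), hgal, ?_⟩
  intro c
  obtain ⟨i0⟩ := hemb (some c)
  have hcard := Pool.Agent.Q166.ESG.card_ext F (L c) K (show L c →+* K from i0) (show F →+* K from j)
  have hfin : Module.Finite F (L c) := Module.Finite.right ℚ F (L c)
  have hpos : 0 < Module.finrank F (L c) := Module.finrank_pos
  rw [← hcard] at hpos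
  obtain ⟨ι, hι⟩ := Finset.card_pos.mp hpos
  have h2 : ι.comp (algebraMap F (L c)) = (show F →+* K from j) := (Finset.mem_filter.mp hι).2
  let _ : Algebra F K := RingHom.toAlgebra (show F →+* K from j)
  exact ⟨{ ι with commutes' := fun x => congrArg (fun f : F →+* K => f x) h2 }⟩

end Pool.Agent.Q147.ESN
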